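import Pool.Agent.helper81.WS.Spec
import Pool.Agent.helper85.PG.Basic

/-! # Project ws, module CLS: cells -/

set_option autoImplicit false

open Finset

namespace Pool.Agent.WS

open Module Pointwise

open Pool.Agent.helper85.PG (IsSys rr)

theorem CLS (hPKC : Pool.Agent.helper85.PG.PKC_stmt) (hCVR : Pool.Agent.helper85.PG.CVR_stmt) :
    CLS_stmt := by
  classical
  intro p _ d P hP μ B hμ
  have hV : (P (μ / 2)).Nonempty := ⟨0, hP.zero_mem (by positivity)⟩
  obtain ⟨X, hXB, hdis, hcov, _⟩ := hCVR p B (P (μ / 2)) hV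
  have hcov' : ∀ b : ZMod p, ∃ x : ZMod p, b ∈ B → x ∈ X ∧ b - x ∈ P μ := by
    intro b
    by_cases hb : b ∈ B
    · obtain ⟨x, hx, v, hv, v', hv', he⟩ := hcov b hb
      refine ⟨x, fun _ => ⟨hx, ?_⟩⟩
      have h1 : b - x = v' - v := by
        linear_combination he
      rw [h1]
      have h2 := hP.sub_mem hv' hv
      rwa [add_halves] at h2
    · exact ⟨0, fun h => absurd h hb⟩
  choose f hf using hcov'
  refine ⟨f, fun b hb => (hf b hb).2, ?_⟩
  intro R y hR
  set I := (B.filter fun b => y - b ∈ P R).image f with hI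
  have hIX : ∀ x ∈ I, x ∈ X ∧ y - x ∈ P (R + μ) := by
    intro x hx
    rw [hI, mem_image] at hx
    obtain ⟨b, hb, rfl⟩ := hx
    rw [mem_filter] at hb
    refine ⟨(hf b hb.1).1, ?_⟩
    have h1 : y - f b = (y - b) + (b - f b) := by ring
    rw [h1]
    exact hP.add_mem hb.2 (hf b hb.1).2
  have hcard : (I ×ˢ P (μ / 2)).card ≤ (P (R + 2 * μ)).card := by
    refine card_le_card_of_injOn (fun z => z.1 - y + z.2) ?_ ?_
    · rintro ⟨x, v⟩ hz
      rw [coe_product, Set.mem_prod, mem_coe, mem_coe] at hz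
      obtain ⟨hx, hv⟩ := hz
      have h1 := hP.neg_mem (hIX x hx).2
      rw [neg_sub] at h1
      have h2 := hP.add_mem h1 hv
      exact hP.mono (by linarith) h2
    · rintro ⟨x, v⟩ hz ⟨x', v'⟩ hz' he
      rw [coe_product, Set.mem_prod, mem_coe, mem_coe] at hz hz'
      simp only at he hz hz'
      have h1 : x + v = x' + v' := by linear_combination he
      have h2 : x = x' := hdis x (hIX x hz.1).1 x' (hIX x' hz'.1).1 v hz.2 v' hz'.2 h1
      subst h2
      have h3 : v = v' := add_left_cancel h1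
      rw [h3]
  rw [card_product] at hcard
  have hpk := ((hPKC.2.2 p d P hP) (R + 2 * μ) (μ / 2) (by positivity) (by positivity)).1
  have hpos : (0 : ℝ) < ((P (μ / 2)).card : ℝ) := by exact_mod_cast hP.card_pos (by positivity)
  have he : 1 + 2 * (R + 2 * μ) / (μ / 2) = 9 + 4 * R / μ := by
    field_simp
    ring
  rw [he] at hpk
  have h5 : ((I.card : ℕ) : ℝ) * ((P (μ / 2)).card : ℝ) ≤
      (9 + 4 * R / μ) ^ d * ((P (μ / 2)).card : ℝ) := by
    refine le_trans ?_ hpk
    exact_mod_cast hcard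
  exact le_of_mul_le_mul_right h5 hpos

end Pool.Agent.WS
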